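import Pool.Agent.Helper74.OKA.St.A3
import Pool.Agent.Helper74.OKA.St.A4

/-! MP_7bedea_an, pieces A5, A6: the Cousin problem and the nonlinear splitting on boxes -/

set_option autoImplicit false

open Set Metric Topology MeasureTheory

namespace Pool.Agent.Helper99.OKA

open Pool.Agent.Helper74.OKA

namespace A5

variable {G G' F : Type} [NormedAddCommGroup G] [NormedSpace ℂ G] [FiniteDimensional ℂ G]
  [NormedAddCommGroup G'] [NormedSpace ℂ G'] [FiniteDimensional ℂ G']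
  [NormedAddCommGroup F] [NormedSpace ℂ F] [FiniteDimensional ℂ F]

/-- the tube lemma -/
theorem tube (vv : G) (K₀ : Set G) (hK₀ : IsCompact K₀) (c d : ℝ) (hcd : c ≤ d) (t : ℝ)
    (W : Set G) (hW : IsOpen W)
    (hS : ∀ g ∈ K₀, ∀ y : ℝ, c ≤ y → y ≤ d → g + ((t : ℂ) + y * Complex.I) • vv ∈ W) :
    ∃ (ε R : ℝ) (P' : Set G), 0 < ε ∧ (d - c) / 2 < R ∧ IsOpen P' ∧ K₀ ⊆ P' ∧
      ∀ g ∈ P', ∀ w ∈ Cs ε R,
        g + (w + ((t : ℂ) + ((c + d) / 2 : ℝ) * Complex.I)) • vv ∈ W := by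
  set τ : ℂ := (t : ℂ) + ((c + d) / 2 : ℝ) * Complex.I with hτ
  set r : ℝ := (d - c) / 2 with hr
  have hr0 : 0 ≤ r := by rw [hr]; linarith
  set S : Set ℂ := (fun y : ℝ => (y : ℂ) * Complex.I) '' Icc (-r) r with hSdef
  have hScomp : IsCompact S := by
    apply isCompact_Icc.image
    fun_prop
  set O : Set (G × ℂ) := {x | x.1 + (x.2 + τ) • vv ∈ W} with hO
  have hOo : IsOpen O := by
    have hcont : Continuous fun x : G × ℂ => x.1 + (x.2 + τ) • vv := by fun_prop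
    exact hW.preimage hcont
  have hsub : K₀ ×ˢ S ⊆ O := by
    rintro ⟨g, w⟩ ⟨hg, y, hy, rfl⟩
    have := hS g hg (y + (c + d) / 2) (by rw [hr] at hy; linarith [hy.1]) (by
      rw [hr] at hy; linarith [hy.2])
    have e : ((y : ℂ) * Complex.I + τ) = ((t : ℂ) + ((y + (c + d) / 2 : ℝ) : ℂ) * Complex.I) := by
      rw [hτ]; push_cast; ring
    change g + ((y : ℂ) * Complex.I + τ) • vv ∈ W
    rw [e]
    exact this
  obtain ⟨P', S', hP', hS', hKP, hSS, hPS⟩ := generalized_tube_lemma hK₀ hScomp hOo hsub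
  obtain ⟨δ, hδ, hδS⟩ := hScomp.exists_thickening_subset_open hS' hSS
  refine ⟨δ / 2, r + δ / 2, P', by positivity, by linarith, hP', hKP, fun g hg w hw => ?_⟩
  have hwS : w ∈ S' := by
    apply hδS
    rw [Metric.mem_thickening_iff]
    refine ⟨((max (-r) (min w.im r) : ℝ) : ℂ) * Complex.I, ⟨_, ⟨le_max_left _ _, ?_⟩, rfl⟩, ?_⟩
    · exact max_le (by linarith) (min_le_right _ _)
    · have h1 := hw.1
      have h2 := hw.2
      rw [abs_lt] at h2
      have h3 : |w.im - max (-r) (min w.im r)| < δ / 2 := by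
        rw [abs_lt]
        constructor
        · rcases le_total (-r) (min w.im r) with h | h
          · rw [max_eq_right h]
            have := min_le_left w.im r
            linarith
          · rw [max_eq_left h]
            linarith
        · rcases le_total w.im r with h | h
          · rw [min_eq_left h]
            have := le_max_right (-r) w.im
            linarith
          · rw [min_eq_right h]
            have := le_max_right (-r) r
            linarith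
      rw [Complex.dist_eq]
      refine lt_of_le_of_lt (Complex.norm_le_abs_re_add_abs_im _) ?_
      have e1 : (w - ((max (-r) (min w.im r) : ℝ) : ℂ) * Complex.I).re = w.re := by simp
      have e2 : (w - ((max (-r) (min w.im r) : ℝ) : ℂ) * Complex.I).im
          = w.im - max (-r) (min w.im r) := by simp
      rw [e1, e2]
      linarith
  exact hPS (mk_mem_prod hg hwS)

theorem isOpen_Cs (ε R : ℝ) : IsOpen (Cs ε R) :=
  (isOpen_lt Complex.continuous_re.abs continuous_const).inter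
    (isOpen_lt Complex.continuous_im.abs continuous_const)

theorem isOpen_As (ε R : ℝ) : IsOpen (As ε R) :=
  (isOpen_lt Complex.continuous_re continuous_const).inter
    (isOpen_lt Complex.continuous_im.abs continuous_const)

theorem isOpen_Bs (ε R : ℝ) : IsOpen (Bs ε R) :=
  (isOpen_lt continuous_const Complex.continuous_re).inter
    (isOpen_lt Complex.continuous_im.abs continuous_const)

theorem mem_Cs_of {ε R : ℝ} {w : ℂ} (h₁ : w ∈ As ε R) (h₂ : w ∈ Bs ε R) : w ∈ Cs ε R :=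
  ⟨abs_lt.2 ⟨h₂.1, h₁.1⟩, h₁.2⟩

/-- the sets of the splitting -/
def US (L : G →L[ℂ] ℂ) (vv : G) (τ : ℂ) (S : Set ℂ) (P' : Set G) : Set G :=
  {z | L z - τ ∈ S ∧ z - L z • vv ∈ P'}

theorem isOpen_US (L : G →L[ℂ] ℂ) (vv : G) (τ : ℂ) {S : Set ℂ} (hS : IsOpen S) {P' : Set G}
    (hP' : IsOpen P') : IsOpen (US L vv τ S P') := by
  have h1 : Continuous fun z : G => L z - τ := by fun_prop
  have h2 : Continuous fun z : G => z - L z • vv := by fun_prop
  exact (hS.preimage h1).inter (hP'.preimage h2)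

/-- the coordinates used for the splitting -/
noncomputable def cc (L : G →L[ℂ] ℂ) (vv : G) (τ : ℂ) (x : G × G') : ℂ × (G × G') :=
  (L x.1 - τ, (x.1 - L x.1 • vv, x.2))

theorem diff_cc (L : G →L[ℂ] ℂ) (vv : G) (τ : ℂ) :
    Differentiable ℂ (cc (G' := G') L vv τ) := by
  unfold cc
  fun_prop

/-- the inverse direction -/
noncomputable def dd (vv : G) (τ : ℂ) (x : ℂ × (G × G')) : G × G' := (x.2.1 + (x.1 + τ) • vv, x.2.2)

theorem diff_dd (vv : G) (τ : ℂ) : Differentiable ℂ (dd (G' := G') vv τ) := by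
  unfold dd
  fun_prop

theorem dd_cc (L : G →L[ℂ] ℂ) (vv : G) (τ : ℂ) (x : G × G') :
    dd vv τ (cc L vv τ x) = x := by
  simp [dd, cc]

theorem cp_core (P : Set G') (hP : IsOpen P) (L : G →L[ℂ] ℂ) (vv : G) (K K₀ : Set G)
    (hK₀ : IsCompact K₀) (c d : ℝ) (hcd : c ≤ d) (t : ℝ)
    (hK : ∀ z ∈ K, z - L z • vv ∈ K₀ ∧ c ≤ (L z).im ∧ (L z).im ≤ d)
    (W : Set G) (hW : IsOpen W)
    (hS : ∀ g ∈ K₀, ∀ y : ℝ, c ≤ y → y ≤ d → g + ((t : ℂ) + y * Complex.I) • vv ∈ W) :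
    ∃ (U₁ U₂ : Set G) (M : ℝ),
    IsOpen U₁ ∧ IsOpen U₂ ∧ K ∩ {z | (L z).re ≤ t} ⊆ U₁ ∧ K ∩ {z | t ≤ (L z).re} ⊆ U₂ ∧
    U₁ ∩ U₂ ⊆ W ∧
    0 ≤ M ∧ ∀ c : G × G' → F, HB W P 1 c → ∃ a b : G × G' → F, HB U₁ P M a ∧ HB U₂ P M b ∧
      (∀ z ∈ U₁ ∩ U₂, ∀ p ∈ P, b (z, p) - a (z, p) = c (z, p)) ∧
      ∀ p ∈ P, (∀ z ∈ W, c (z, p) = 0) → (∀ z ∈ U₁, a (z, p) = 0) ∧ ∀ z ∈ U₂, b (z, p) = 0 := by
  obtain ⟨ε, R, P', hε, hR, hP', hKP, hT⟩ := tube vv K₀ hK₀ c d hcd t W hW hS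
  set τ : ℂ := (t : ℂ) + ((c + d) / 2 : ℝ) * Complex.I with hτ
  have hR0 : 0 < R := by linarith
  have hτre : τ.re = t := by simp [hτ]
  have hτim : τ.im = (c + d) / 2 := by simp [hτ]
  obtain ⟨C, 𝒜, ℬ, hC, h1, h2, h3, h4⟩ := exists_split ε R hε hR0 (G × G') F
  have him : ∀ z ∈ K, |(L z - τ).im| < R := by
    intro z hz
    obtain ⟨-, h5, h6⟩ := hK z hz
    rw [Complex.sub_im, hτim, abs_lt]
    constructor <;> linarith
  have hcc : ∀ (S : Set ℂ) (x : G × G'), x ∈ US L vv τ S P' ×ˢ P →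
      cc L vv τ x ∈ S ×ˢ (P' ×ˢ P) := by
    rintro S x ⟨⟨h5, h6⟩, h7⟩
    exact ⟨h5, h6, h7⟩
  have hdd : ∀ x ∈ Cs ε R ×ˢ (P' ×ˢ P), dd vv τ x ∈ W ×ˢ P := by
    rintro x ⟨h5, h6, h7⟩
    exact ⟨hT _ h6 _ h5, h7⟩
  refine ⟨US L vv τ (As ε R) P', US L vv τ (Bs ε R) P', C, isOpen_US _ _ _ (isOpen_As _ _) hP',
    isOpen_US _ _ _ (isOpen_Bs _ _) hP', ?_, ?_, ?_, hC.le, ?_⟩
  · rintro z ⟨hz, hzt⟩
    refine ⟨⟨?_, him z hz⟩, hKP (hK z hz).1⟩
    have : (L z).re ≤ t := hzt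
    rw [Complex.sub_re, hτre]
    linarith
  · rintro z ⟨hz, hzt⟩
    refine ⟨⟨?_, him z hz⟩, hKP (hK z hz).1⟩
    have : t ≤ (L z).re := hzt
    rw [Complex.sub_re, hτre]
    linarith
  · rintro z ⟨hz1, hz2⟩
    have := hT _ hz1.2 _ (mem_Cs_of hz1.1 hz2.1)
    have e : z - L z • vv + (L z - τ + τ) • vv = z := by
      rw [sub_add_cancel (L z) τ, sub_add_cancel]
    rwa [e] at this
  · intro f hf
    have hPP : IsOpen (P' ×ˢ P) := hP'.prod hP
    have hf' : HB (Cs ε R) (P' ×ˢ P) 1 (fun x => f (dd vv τ x)) :=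
      ⟨hf.1.comp (diff_dd vv τ).differentiableOn hdd, fun x hx => hf.2 _ (hdd x hx)⟩
    have h0 : HB (Cs ε R) (P' ×ˢ P) 1 (0 : ℂ × (G × G') → F) :=
      ⟨differentiableOn_const 0, fun x hx => by simp⟩
    obtain ⟨h5, h6, h7⟩ := h1 (P' ×ˢ P) _ 1 hPP hf'
    have h8 := h2 (P' ×ˢ P) _ _ 1 hPP hf' h0
    refine ⟨fun x => 𝒜 (fun x => f (dd vv τ x)) (cc L vv τ x),
      fun x => ℬ (fun x => f (dd vv τ x)) (cc L vv τ x), ⟨?_, ?_⟩, ⟨?_, ?_⟩, ?_, ?_⟩
    · exact h5.comp (diff_cc L vv τ).differentiableOn (hcc _)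
    · intro x hx
      obtain ⟨h9, h10⟩ := hcc _ x hx
      have := (h8 (cc L vv τ x).2 h10 1 (fun w hw => by
        simpa using hf'.2 (w, (cc L vv τ x).2) ⟨hw, h10⟩)).1 (cc L vv τ x).1 h9
      rw [h3, sub_zero, mul_one] at this
      exact this
    · exact h6.comp (diff_cc L vv τ).differentiableOn (hcc _)
    · intro x hx
      obtain ⟨h9, h10⟩ := hcc _ x hx
      have := (h8 (cc L vv τ x).2 h10 1 (fun w hw => by
        simpa using hf'.2 (w, (cc L vv τ x).2) ⟨hw, h10⟩)).2 (cc L vv τ x).1 h9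
      rw [h4, sub_zero, mul_one] at this
      exact this
    · rintro z ⟨hz1, hz2⟩ p hp
      have := h7 (cc L vv τ (z, p)) ⟨mem_Cs_of hz1.1 hz2.1, hz1.2, hp⟩
      simp only [dd_cc] at this
      exact this
    · intro p hp hcp
      have key : ∀ q ∈ P', ∀ w ∈ Cs ε R, ‖(fun x => f (dd vv τ x)) (w, (q, p)) -
          (0 : ℂ × (G × G') → F) (w, (q, p))‖ ≤ 0 := by
        intro q hq w hw
        have := hcp (q + (w + τ) • vv) (hT q hq w hw)
        simp [dd, this]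
      refine ⟨fun z hz => ?_, fun z hz => ?_⟩
      · have := (h8 (z - L z • vv, p) ⟨hz.2, hp⟩ 0 (key _ hz.2)).1 _ hz.1
        rw [h3, sub_zero, mul_zero, norm_le_zero_iff] at this
        exact this
      · have := (h8 (z - L z • vv, p) ⟨hz.2, hp⟩ 0 (key _ hz.2)).2 _ hz.1
        rw [h4, sub_zero, mul_zero, norm_le_zero_iff] at this
        exact this

theorem ns_core (L : G →L[ℂ] ℂ) (vv : G) (K K₀ : Set G)
    (hK₀ : IsCompact K₀) (c d : ℝ) (hcd : c ≤ d) (t : ℝ)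
    (hK : ∀ z ∈ K, z - L z • vv ∈ K₀ ∧ c ≤ (L z).im ∧ (L z).im ≤ d)
    (W : Set G) (hW : IsOpen W)
    (hS : ∀ g ∈ K₀, ∀ y : ℝ, c ≤ y → y ≤ d → g + ((t : ℂ) + y * Complex.I) • vv ∈ W) :
    ∃ U₁ U₂ : Set G,
    IsOpen U₁ ∧ IsOpen U₂ ∧ K ∩ {z | (L z).re ≤ t} ⊆ U₁ ∧ K ∩ {z | t ≤ (L z).re} ⊆ U₂ ∧
    U₁ ∩ U₂ ⊆ W ∧
    ∀ ρ > 0, ∃ δ > 0, ∀ η : G × F → F, HB W (ball 0 1) δ η → ∃ a b : G × F → F,
      HB U₁ (ball 0 (1 / 2)) ρ a ∧ HB U₂ (ball 0 (1 / 2)) ρ b ∧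
      (∀ z ∈ U₁ ∩ U₂, ∀ s ∈ ball (0 : F) (1 / 2), b (z, s) = a (z, s) + η (z, s + a (z, s))) ∧
      ((∀ z ∈ W, η (z, 0) = 0) → (∀ z ∈ U₁, a (z, 0) = 0) ∧ ∀ z ∈ U₂, b (z, 0) = 0) := by
  obtain ⟨ε, R, P', hε, hR, hP', hKP, hT⟩ := tube vv K₀ hK₀ c d hcd t W hW hS
  set τ : ℂ := (t : ℂ) + ((c + d) / 2 : ℝ) * Complex.I with hτ
  have hR0 : 0 < R := by linarith
  have hτre : τ.re = t := by simp [hτ]
  have hτim : τ.im = (c + d) / 2 := by simp [hτ]
  have him : ∀ z ∈ K, |(L z - τ).im| < R := by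
    intro z hz
    obtain ⟨-, h5, h6⟩ := hK z hz
    rw [Complex.sub_im, hτim, abs_lt]
    constructor <;> linarith
  have hcc : ∀ (S : Set ℂ) (B : Set F) (x : G × F), x ∈ US L vv τ S P' ×ˢ B →
      cc L vv τ x ∈ S ×ˢ (P' ×ˢ B) := by
    rintro S B x ⟨⟨h5, h6⟩, h7⟩
    exact ⟨h5, h6, h7⟩
  have hdd : ∀ (B : Set F), ∀ x ∈ Cs ε R ×ˢ (P' ×ˢ B), dd vv τ x ∈ W ×ˢ B := by
    rintro B x ⟨h5, h6, h7⟩
    exact ⟨hT _ h6 _ h5, h7⟩
  refine ⟨US L vv τ (As ε R) P', US L vv τ (Bs ε R) P', isOpen_US _ _ _ (isOpen_As _ _) hP',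
    isOpen_US _ _ _ (isOpen_Bs _ _) hP', ?_, ?_, ?_, ?_⟩
  · rintro z ⟨hz, hzt⟩
    refine ⟨⟨?_, him z hz⟩, hKP (hK z hz).1⟩
    have : (L z).re ≤ t := hzt
    rw [Complex.sub_re, hτre]
    linarith
  · rintro z ⟨hz, hzt⟩
    refine ⟨⟨?_, him z hz⟩, hKP (hK z hz).1⟩
    have : t ≤ (L z).re := hzt
    rw [Complex.sub_re, hτre]
    linarith
  · rintro z ⟨hz1, hz2⟩
    have := hT _ hz1.2 _ (mem_Cs_of hz1.1 hz2.1)
    have e : z - L z • vv + (L z - τ + τ) • vv = z := by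
      rw [sub_add_cancel (L z) τ, sub_add_cancel]
    rwa [e] at this
  · intro ρ hρ
    obtain ⟨δ, hδ, h1⟩ := nonlinear_split ε R hε hR0 G F ρ hρ
    refine ⟨δ, hδ, fun η hη => ?_⟩
    obtain ⟨a, b, ha, hb, haρ, hbρ, hab, hz⟩ := h1 P' (fun x => η (dd vv τ x)) hP'
      (hη.1.comp (diff_dd vv τ).differentiableOn (hdd _)) (fun x hx => hη.2 _ (hdd _ x hx))
    refine ⟨fun x => a (cc L vv τ x), fun x => b (cc L vv τ x), ⟨?_, ?_⟩, ⟨?_, ?_⟩, ?_, ?_⟩
    · exact ha.comp (diff_cc L vv τ).differentiableOn (hcc _ _)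
    · exact fun x hx => haρ _ (hcc _ _ x hx)
    · exact hb.comp (diff_cc L vv τ).differentiableOn (hcc _ _)
    · exact fun x hx => hbρ _ (hcc _ _ x hx)
    · rintro z ⟨hz1, hz2⟩ s hs
      have := hab (L z - τ) (mem_Cs_of hz1.1 hz2.1) (z - L z • vv) hz1.2 s hs
      simp only [dd, sub_add_cancel] at this
      exact this
    · intro h0
      have key : ∀ g ∈ P', ∀ w ∈ Cs ε R, (fun x => η (dd vv τ x)) (w, g, 0) = 0 := by
        intro g hg w hw
        exact h0 _ (hT g hg w hw)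
      refine ⟨fun z hz' => ?_, fun z hz' => ?_⟩
      · exact (hz _ hz'.2 (key _ hz'.2)).1 _ hz'.1
      · exact (hz _ hz'.2 (key _ hz'.2)).2 _ hz'.1

theorem isCompact_rect {Q : Set ℂ} (hQ : IsRect Q) : IsCompact Q := by
  obtain ⟨a, b, c, d, rfl⟩ := hQ
  have : {w : ℂ | a ≤ w.re ∧ w.re ≤ b ∧ c ≤ w.im ∧ w.im ≤ d} = Icc a b ×ℂ Icc c d := by
    ext w
    simp only [Complex.mem_reProdIm, mem_Icc]
    exact ⟨fun h => ⟨⟨h.1, h.2.1⟩, h.2.2.1, h.2.2.2⟩, fun h => ⟨h.1.1, h.1.2, h.2.1, h.2.2⟩⟩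
  rw [this]
  exact isCompact_Icc.reProdIm isCompact_Icc

theorem isCompact_box {ι : Type} [Fintype ι] [DecidableEq ι] (e : ι → G →L[ℂ] ℂ) (v : ι → G)
    (he : IsCoord e v) (Q : ι → Set ℂ) (hQ : ∀ i, IsRect (Q i)) : IsCompact (Poly e Q []) := by
  have h1 : IsCompact (Set.pi univ Q) := isCompact_univ_pi fun i => isCompact_rect (hQ i)
  have h2 : Continuous fun x : ι → ℂ => ∑ i, x i • v i := by fun_prop
  have h3 : Poly e Q [] = (fun x : ι → ℂ => ∑ i, x i • v i) '' Set.pi univ Q := by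
    ext z
    constructor
    · intro hz
      exact ⟨fun i => e i z, fun i _ => hz.1 i, he.2 z⟩
    · rintro ⟨x, hx, rfl⟩
      refine ⟨fun i => ?_, fun y hy => by simp at hy⟩
      have : e i (∑ j, x j • v j) = x i := by
        rw [map_sum]
        simp only [map_smul, he.1, smul_eq_mul, mul_ite, mul_one, mul_zero]
        simp
      rw [this]
      exact hx i (mem_univ i)
  rw [h3]
  exact h1.image h2

theorem cp_triv₁ (P : Set G') (K : Set G) (m : G → ℝ) (t : ℝ) (h : K ∩ {z | m z ≤ t} = ∅) :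
    CP F P K m t := by
  intro W hW hKW
  refine ⟨∅, univ, 0, isOpen_empty, isOpen_univ, h.subset, subset_univ _, by simp, le_rfl,
    fun c hc => ⟨0, 0, ⟨differentiableOn_const 0, by simp⟩, ⟨differentiableOn_const 0, by simp⟩,
      by simp, by simp⟩⟩

theorem cp_triv₂ (P : Set G') (K : Set G) (m : G → ℝ) (t : ℝ) (h : K ∩ {z | t ≤ m z} = ∅) :
    CP F P K m t := by
  intro W hW hKW
  refine ⟨univ, ∅, 0, isOpen_univ, isOpen_empty, subset_univ _, h.subset, by simp, le_rfl,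
    fun c hc => ⟨0, 0, ⟨differentiableOn_const 0, by simp⟩, ⟨differentiableOn_const 0, by simp⟩,
      by simp, by simp⟩⟩

theorem ns_triv₁ (K : Set G) (m : G → ℝ) (t : ℝ) (h : K ∩ {z | m z ≤ t} = ∅) :
    NS F K m t := by
  intro W hW hKW
  refine ⟨∅, univ, isOpen_empty, isOpen_univ, h.subset, subset_univ _, by simp,
    fun ρ hρ => ⟨1, one_pos, fun c hc => ⟨0, 0, ⟨differentiableOn_const 0, by simp⟩,
      ⟨differentiableOn_const 0, by simp [hρ.le]⟩, by simp, by simp⟩⟩⟩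

theorem ns_triv₂ (K : Set G) (m : G → ℝ) (t : ℝ) (h : K ∩ {z | t ≤ m z} = ∅) :
    NS F K m t := by
  intro W hW hKW
  refine ⟨univ, ∅, isOpen_univ, isOpen_empty, subset_univ _, h.subset, by simp,
    fun ρ hρ => ⟨1, one_pos, fun c hc => ⟨0, 0, ⟨differentiableOn_const 0, by simp [hρ.le]⟩,
      ⟨differentiableOn_const 0, by simp⟩, by simp, by simp⟩⟩⟩

/-- a functional, a direction, and the range of the functional on `K` -/
structure Adm (L : G →L[ℂ] ℂ) (vv : G) (K : Set G) (t c d : ℝ) : Prop where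
  cpt : IsCompact K
  hcd : c ≤ d
  him : ∀ z ∈ K, c ≤ (L z).im ∧ (L z).im ≤ d
  hLv : L vv = 1
  hS : ∀ z ∈ K, ∀ y : ℝ, c ≤ y → y ≤ d → z - L z • vv + ((t : ℂ) + y * Complex.I) • vv ∈ K

theorem Adm.cp {L : G →L[ℂ] ℂ} {vv : G} {K : Set G} {t c d : ℝ} (h : Adm L vv K t c d)
    (P : Set G') (hP : IsOpen P) : CP F P K (fun z => (L z).re) t := by
  intro W hW hKW
  have hcont : Continuous fun z : G => z - L z • vv := by fun_prop
  refine cp_core P hP L vv K ((fun z => z - L z • vv) '' K) (h.cpt.image hcont) c d h.hcd t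
    (fun z hz => ⟨mem_image_of_mem _ hz, h.him z hz⟩) W hW ?_
  rintro _ ⟨z, hz, rfl⟩ y hy1 hy2
  refine hKW ⟨h.hS z hz y hy1 hy2, ?_⟩
  change (L (z - L z • vv + ((t : ℂ) + y * Complex.I) • vv)).re = t
  rw [map_add, map_sub, map_smul, map_smul, h.hLv]
  simp

theorem Adm.ns {L : G →L[ℂ] ℂ} {vv : G} {K : Set G} {t c d : ℝ} (h : Adm L vv K t c d) :
    NS F K (fun z => (L z).re) t := by
  intro W hW hKW
  have hcont : Continuous fun z : G => z - L z • vv := by fun_prop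
  refine ns_core L vv K ((fun z => z - L z • vv) '' K) (h.cpt.image hcont) c d h.hcd t
    (fun z hz => ⟨mem_image_of_mem _ hz, h.him z hz⟩) W hW ?_
  rintro _ ⟨z, hz, rfl⟩ y hy1 hy2
  refine hKW ⟨h.hS z hz y hy1 hy2, ?_⟩
  change (L (z - L z • vv + ((t : ℂ) + y * Complex.I) • vv)).re = t
  rw [map_add, map_sub, map_smul, map_smul, h.hLv]
  simp

/-- replacing one coordinate -/
theorem box_update {ι : Type} [Fintype ι] [DecidableEq ι] (e : ι → G →L[ℂ] ℂ) (v : ι → G)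
    (he : IsCoord e v) (Q : ι → Set ℂ) (i : ι) {z : G} (hz : z ∈ Poly e Q []) {w : ℂ}
    (hw : w ∈ Q i) : z - e i z • v i + w • v i ∈ Poly e Q [] := by
  refine ⟨fun j => ?_, fun y hy => by simp at hy⟩
  rw [map_add, map_sub, map_smul, map_smul, he.1]
  by_cases hj : j = i
  · subst hj
    simpa using hw
  · simpa [hj] using hz.1 j

theorem adm_re {ι : Type} [Fintype ι] [DecidableEq ι] (e : ι → G →L[ℂ] ℂ) (v : ι → G)
    (he : IsCoord e v) (Q : ι → Set ℂ) (hQ : ∀ i, IsRect (Q i)) (i : ι) (t : ℝ) :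
    Poly e Q [] ∩ {z | (e i z).re ≤ t} = ∅ ∨ Poly e Q [] ∩ {z | t ≤ (e i z).re} = ∅ ∨
      ∃ c d, Adm (e i) (v i) (Poly e Q []) t c d := by
  rcases (Poly e Q []).eq_empty_or_nonempty with h0 | ⟨z₀, hz₀⟩
  · left
    rw [h0, empty_inter]
  obtain ⟨a, b, c, d, hab⟩ := hQ i
  have hr : ∀ z ∈ Poly e Q [], a ≤ (e i z).re ∧ (e i z).re ≤ b ∧ c ≤ (e i z).im ∧
      (e i z).im ≤ d := by
    intro z hz
    have := hz.1 i
    rw [hab] at this
    exact this
  by_cases h1 : t < a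
  · left
    rw [eq_empty_iff_forall_notMem]
    rintro z ⟨hz, hz'⟩
    have h2 : (e i z).re ≤ t := hz'
    linarith [(hr z hz).1]
  by_cases h2 : b < t
  · right; left
    rw [eq_empty_iff_forall_notMem]
    rintro z ⟨hz, hz'⟩
    have h2 : t ≤ (e i z).re := hz'
    linarith [(hr z hz).2.1]
  right; right
  push Not at h1 h2
  refine ⟨c, d, isCompact_box e v he Q hQ, ?_, fun z hz => (hr z hz).2.2, ?_, ?_⟩
  · linarith [(hr z₀ hz₀).2.2.1, (hr z₀ hz₀).2.2.2]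
  · rw [he.1]; simp
  · intro z hz y hy1 hy2
    refine box_update e v he Q i hz ?_
    rw [hab]
    change a ≤ _ ∧ _ ≤ b ∧ c ≤ _ ∧ _ ≤ d
    simp [h1, h2, hy1, hy2]

theorem adm_im {ι : Type} [Fintype ι] [DecidableEq ι] (e : ι → G →L[ℂ] ℂ) (v : ι → G)
    (he : IsCoord e v) (Q : ι → Set ℂ) (hQ : ∀ i, IsRect (Q i)) (i : ι) (t : ℝ) :
    Poly e Q [] ∩ {z | (e i z).im ≤ t} = ∅ ∨ Poly e Q [] ∩ {z | t ≤ (e i z).im} = ∅ ∨
      ∃ c d, Adm ((-Complex.I) • e i) (Complex.I • v i) (Poly e Q []) t c d := by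
  rcases (Poly e Q []).eq_empty_or_nonempty with h0 | ⟨z₀, hz₀⟩
  · left
    rw [h0, empty_inter]
  obtain ⟨a, b, c, d, hab⟩ := hQ i
  have hr : ∀ z ∈ Poly e Q [], a ≤ (e i z).re ∧ (e i z).re ≤ b ∧ c ≤ (e i z).im ∧
      (e i z).im ≤ d := by
    intro z hz
    have := hz.1 i
    rw [hab] at this
    exact this
  by_cases h1 : t < c
  · left
    rw [eq_empty_iff_forall_notMem]
    rintro z ⟨hz, hz'⟩
    have h2 : (e i z).im ≤ t := hz'
    linarith [(hr z hz).2.2.1]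
  by_cases h2 : d < t
  · right; left
    rw [eq_empty_iff_forall_notMem]
    rintro z ⟨hz, hz'⟩
    have h2 : t ≤ (e i z).im := hz'
    linarith [(hr z hz).2.2.2]
  right; right
  push Not at h1 h2
  refine ⟨-b, -a, isCompact_box e v he Q hQ, ?_, fun z hz => ?_, ?_, ?_⟩
  · linarith [(hr z₀ hz₀).1, (hr z₀ hz₀).2.1]
  · have := hr z hz
    have e1 : (((-Complex.I) • e i) z).im = -(e i z).re := by simp
    rw [e1]
    constructor <;> linarith [this.1, this.2.1]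
  · simp [he.1, ← mul_assoc]
  · intro z hz y hy1 hy2
    have h3 : ((-Complex.I) • e i) z • Complex.I • v i = e i z • v i := by
      rw [smul_smul]
      congr 1
      have : ((-Complex.I) • e i) z = -Complex.I * e i z := rfl
      rw [this]
      linear_combination (-(e i z)) * Complex.I_sq
    have h4 : ((t : ℂ) + y * Complex.I) • Complex.I • v i = (-(y : ℂ) + t * Complex.I) • v i := by
      rw [smul_smul]
      congr 1
      linear_combination (y : ℂ) * Complex.I_sq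
    rw [h3, h4]
    refine box_update e v he Q i hz ?_
    rw [hab]
    change a ≤ _ ∧ _ ≤ b ∧ c ≤ _ ∧ _ ≤ d
    have e1 : (-(y : ℂ) + t * Complex.I).re = -y := by simp
    have e2 : (-(y : ℂ) + t * Complex.I).im = t := by simp
    rw [e1, e2]
    refine ⟨by linarith, by linarith, h1, h2⟩

end A5

variable {G G' F : Type} [NormedAddCommGroup G] [NormedSpace ℂ G] [FiniteDimensional ℂ G]
  [NormedAddCommGroup G'] [NormedSpace ℂ G'] [FiniteDimensional ℂ G']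
  [NormedAddCommGroup F] [NormedSpace ℂ F] [FiniteDimensional ℂ F]

theorem re_negI_smul (e : G →L[ℂ] ℂ) (z : G) : (((-Complex.I) • e) z).re = (e z).im := by
  simp

theorem cp_box {ι : Type} [Fintype ι] [DecidableEq ι] (e : ι → G →L[ℂ] ℂ) (v : ι → G)
    (he : IsCoord e v) (Q : ι → Set ℂ) (hQ : ∀ i, IsRect (Q i)) (P : Set G') (hP : IsOpen P)
    (i : ι) (t : ℝ) :
    CP F P (Poly e Q []) (fun z => (e i z).re) t ∧
      CP F P (Poly e Q []) (fun z => (e i z).im) t := by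
  constructor
  · rcases A5.adm_re e v he Q hQ i t with h | h | ⟨c, d, h⟩
    · exact A5.cp_triv₁ P _ _ t h
    · exact A5.cp_triv₂ P _ _ t h
    · exact h.cp P hP
  · rcases A5.adm_im e v he Q hQ i t with h | h | ⟨c, d, h⟩
    · exact A5.cp_triv₁ P _ _ t h
    · exact A5.cp_triv₂ P _ _ t h
    · have := h.cp (F := F) P hP
      simp only [re_negI_smul] at this
      exact this

theorem ns_box {ι : Type} [Fintype ι] [DecidableEq ι] (e : ι → G →L[ℂ] ℂ) (v : ι → G)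
    (he : IsCoord e v) (Q : ι → Set ℂ) (hQ : ∀ i, IsRect (Q i)) (i : ι) (t : ℝ) :
    NS F (Poly e Q []) (fun z => (e i z).re) t := by
  rcases A5.adm_re e v he Q hQ i t with h | h | ⟨c, d, h⟩
  · exact A5.ns_triv₁ _ _ t h
  · exact A5.ns_triv₂ _ _ t h
  · exact h.ns

end Pool.Agent.Helper99.OKA
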